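import Pool.Agent.H.MP_b892c7_gt.helper19.Basis

/-!
Every flat torus of dimension `n` embeds in real Hilbert space with distortion at most
`51 * sqrt n`.
-/

set_option autoImplicit false

namespace Pool.Agent.Results.MP_b892c7_gt.FiftyOneSqrt

open Pool.Agent.H.MP_b892c7_gt Pool.Agent.H.MP_b892c7_gt.helper19

/-- The lattice of all integer combinations of the vectors `b 1, ..., b n`. -/
def lattice {n : ℕ} (b : Fin n → EuclideanSpace ℝ (Fin n)) : Set (EuclideanSpace ℝ (Fin n)) :=
  {v | ∃ c : Fin n → ℤ, v = ∑ i, (c i : ℝ) • b i}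

/-- The distance of the classes of `u` and `v` in the flat torus `ℝⁿ / L`: the distance of `u - v`
to the lattice `L`. -/
noncomputable def torusDist {n : ℕ} (L : Set (EuclideanSpace ℝ (Fin n)))
    (u v : EuclideanSpace ℝ (Fin n)) : ℝ := Metric.infDist (u - v) L

/-- For linearly independent vectors `b 1, ..., b n` of Euclidean `n`-space, `n ≥ 1`, with integer
combinations forming the lattice `L`, there is a map `f` to the real Hilbert space of square
summable sequences with
`dist(u, v) ≤ ‖f u - f v‖ ≤ 51 * sqrt n * dist(u, v)`, where `dist` is the distance of the classes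
in the flat torus; moreover `f u = f v` exactly when `u - v` is in `L`, so that `f` is an injective
map on the torus. -/
theorem result (n : ℕ) (hn : 1 ≤ n) (b : Fin n → EuclideanSpace ℝ (Fin n))
    (hb : LinearIndependent ℝ b) :
    ∃ f : EuclideanSpace ℝ (Fin n) → lp (fun _ : ℕ => ℝ) 2, ∀ u v,
      (f u = f v ↔ u - v ∈ lattice b) ∧ torusDist (lattice b) u v ≤ ‖f u - f v‖ ∧
      ‖f u - f v‖ ≤ 51 * Real.sqrt n * torusDist (lattice b) u v := by
  classical
  have : Nonempty (Fin n) := ⟨⟨0, hn⟩⟩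
  let B : Module.Basis (Fin n) ℝ (EuclideanSpace ℝ (Fin n)) :=
    basisOfLinearIndependentOfCardEqFinrank hb (by simp)
  have hB : ∀ i, B i = b i := fun i => by simp [B]
  have hL : lattice b = Set.range (lat B) := by
    ext x
    constructor
    · rintro ⟨c, hc⟩
      refine ⟨c, ?_⟩
      rw [hc, lat_apply]
      exact Finset.sum_congr rfl fun i _ => by rw [hB]
    · rintro ⟨c, hc⟩
      refine ⟨c, ?_⟩
      rw [← hc, lat_apply]
      exact Finset.sum_congr rfl fun i _ => by rw [hB]
  obtain ⟨f, hf⟩ := embed_basis B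
  have hcard : Fintype.card (Fin n) = n := Fintype.card_fin n
  have hpi : 3.14 < Real.pi := Real.pi_gt_d2
  have hpi4 : Real.pi < 3.15 := Real.pi_lt_d2
  have hn1 : (1 : ℝ) ≤ n := by exact_mod_cast hn
  have hdist : ∀ u v : EuclideanSpace ℝ (Fin n), torusDist (lattice b) u v = RR B (u - v) := by
    intro u v
    unfold torusDist RR
    rw [hL]
  have key : ∀ u v : EuclideanSpace ℝ (Fin n), RR B (u - v) ≤ 37 / 2 * ‖f u - f v‖ ∧
      37 / 2 * ‖f u - f v‖ ≤ 51 * Real.sqrt n * RR B (u - v) := by
    intro u v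
    obtain ⟨h1, h2⟩ := hf u v
    have hR0 := RR_nonneg B (u - v)
    have hF0 := norm_nonneg (f u - f v)
    constructor
    · apply le_of_sq _ (by positivity)
      have h3 : Real.pi * RR B (u - v) ^ 2 ≤ Real.pi * (37 / 2 * ‖f u - f v‖) ^ 2 := by
        nlinarith [sq_nonneg ‖f u - f v‖]
      exact le_of_mul_le_mul_left h3 Real.pi_pos
    · have hsn : 0 < Real.sqrt n := Real.sqrt_pos.mpr (by linarith)
      have h3 : 37 / 2 * ‖f u - f v‖ / (51 * Real.sqrt n) ≤ RR B (u - v) := by
        refine le_RR B _ _ fun m => ?_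
        rw [div_le_iff₀ (by positivity)]
        apply le_of_sq _ (by positivity)
        have h4 := h2 m
        rw [hcard] at h4
        have hq : 0 ≤ ‖u - v - lat B m‖ ^ 2 := sq_nonneg _
        have hlog : Real.log 2 < 0.6931471808 := Real.log_two_lt_d9
        have e1 : 2 * (n : ℝ) * Real.log 2 + 1 ≤ 2.3864 * n := by nlinarith
        have e2 : Real.pi * (2 * (n : ℝ) * Real.log 2 + 1) ≤ 3.15 * (2.3864 * n) := by
          have e0 : 0 ≤ 2 * (n : ℝ) * Real.log 2 + 1 := by
            have := Real.log_pos (show (1 : ℝ) < 2 by norm_num)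
            positivity
          exact mul_le_mul hpi4.le e1 e0 (by norm_num)
        have e3 := mul_le_mul_of_nonneg_right e2 hq
        have e4 : (‖u - v - lat B m‖ * (51 * Real.sqrt n)) ^ 2
            = 2601 * (n * ‖u - v - lat B m‖ ^ 2) := by
          rw [mul_pow, mul_pow, Real.sq_sqrt (by linarith)]
          ring
        rw [e4]
        have e5 : (0 : ℝ) ≤ n * ‖u - v - lat B m‖ ^ 2 := by positivity
        nlinarith
      rw [div_le_iff₀ (by positivity)] at h3
      linarith
  have hnorm : ∀ u v : EuclideanSpace ℝ (Fin n),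
      ‖(37 / 2 : ℝ) • f u - (37 / 2 : ℝ) • f v‖ = 37 / 2 * ‖f u - f v‖ := by
    intro x y
    rw [← smul_sub, norm_smul]
    norm_num
  refine ⟨fun u => (37 / 2 : ℝ) • f u, fun u v => ⟨⟨fun hxy => ?_, fun huv => ?_⟩, ?_⟩⟩
  · have h1 : ‖(37 / 2 : ℝ) • f u - (37 / 2 : ℝ) • f v‖ = 0 := by
      rw [show (37 / 2 : ℝ) • f u = (37 / 2 : ℝ) • f v from hxy, sub_self, norm_zero]
    rw [hnorm] at h1
    have h2 := (key u v).1
    have h3 : RR B (u - v) = 0 := le_antisymm (by linarith) (RR_nonneg B _)
    have e : (Set.range (lat B) : Set (EuclideanSpace ℝ (Fin n)))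
        = ((Submodule.span ℤ (Set.range B)).toAddSubgroup : Set (EuclideanSpace ℝ (Fin n))) := by
      ext x
      rw [Set.mem_range, Submodule.coe_toAddSubgroup, SetLike.mem_coe,
        Submodule.mem_span_range_iff_exists_fun]
      constructor
      · rintro ⟨c, hc⟩
        refine ⟨c, ?_⟩
        rw [← hc, lat_apply]
        exact Finset.sum_congr rfl fun i _ => by rw [Int.cast_smul_eq_zsmul]
      · rintro ⟨c, hc⟩
        refine ⟨c, ?_⟩
        rw [← hc, lat_apply]
        exact Finset.sum_congr rfl fun i _ => by rw [Int.cast_smul_eq_zsmul]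
    have hcl : IsClosed (Set.range (lat B)) := by
      rw [e]
      exact AddSubgroup.isClosed_of_discrete
    rw [hL, ← hcl.closure_eq, Metric.mem_closure_iff_infDist_zero (range_ne B)]
    exact h3
  · rw [hL] at huv
    obtain ⟨m, hm⟩ := huv
    have h1 := (hf u v).2 m
    rw [← hm, sub_self, norm_zero] at h1
    have h2 : ‖f u - f v‖ = 0 := by
      have h3 : ‖f u - f v‖ ^ 2 ≤ 0 := by
        rw [zero_pow two_ne_zero, mul_zero] at h1
        exact h1
      exact pow_eq_zero_iff two_ne_zero |>.1 (le_antisymm h3 (sq_nonneg _))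
    have h4 : f u = f v := sub_eq_zero.1 (norm_eq_zero.1 h2)
    show (37 / 2 : ℝ) • f u = (37 / 2 : ℝ) • f v
    rw [h4]
  · show torusDist (lattice b) u v ≤ ‖(37 / 2 : ℝ) • f u - (37 / 2 : ℝ) • f v‖ ∧
      ‖(37 / 2 : ℝ) • f u - (37 / 2 : ℝ) • f v‖ ≤ 51 * Real.sqrt n * torusDist (lattice b) u v
    rw [hnorm, hdist]
    exact key _ _

end Pool.Agent.Results.MP_b892c7_gt.FiftyOneSqrt
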